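import Mathlib
import Pool.Agent.H295R3.NA.Stmts

set_option autoImplicit false

open Finset ArithmeticFunction Filter Topology

namespace Pool.Agent.H184R4.NA

open Pool.Agent.H295R3.NA

/-- excluded primes up to `Y` -/
def PS (l Y : ℕ) : Finset ℕ := (Icc 1 Y).filter (fun q : ℕ => q.Prime ∧ l ∣ q + 1)

open Classical in
/-- `a ≤ A` composed of excluded primes -/
noncomputable def SA (l Y A : ℕ) : Finset ℕ :=
  (Icc 1 A).filter (fun a => a ∈ Nat.factoredNumbers (PS l Y))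

/-- power as a monoid hom -/
noncomputable def pw (σ : ℝ) : ℕ →* ℝ where
  toFun n := (n : ℝ) ^ (-σ)
  map_one' := by simp
  map_mul' a b := by
    push_cast
    exact Real.mul_rpow (Nat.cast_nonneg a) (Nat.cast_nonneg b)

lemma coprime_of {l Y m a : ℕ} (hm : Free l m) (ha : a ∈ Nat.factoredNumbers (PS l Y)) :
    Nat.Coprime a m := by
  rw [Nat.mem_factoredNumbers] at ha
  obtain ⟨ha0, ha1⟩ := ha
  apply Nat.Coprime.symm
  rw [Nat.coprime_comm]
  apply Nat.coprime_of_dvd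
  intro p hp hpa hpm
  have h1 : p ∈ Nat.primeFactorsList a := (Nat.mem_primeFactorsList ha0).2 ⟨hp, hpa⟩
  have h2 := ha1 p h1
  simp only [PS, mem_filter] at h2
  exact hm p hp h2.2.2 hpm

open Classical in
lemma HH_mul_le (l Y A : ℕ) :
    HH l Y * ∑ a ∈ SA l Y A, (1 : ℝ) / a ≤ ∑ n ∈ Icc 1 (Y * A), (1 : ℝ) / n := by
  unfold HH
  rw [Finset.sum_mul_sum, ← Finset.sum_product']
  have hinj : Set.InjOn (fun p : ℕ × ℕ => p.1 * p.2)
      (((Icc 1 Y).filter (fun m => Free l m)) ×ˢ SA l Y A : Finset (ℕ × ℕ)) := by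
    rintro ⟨m, a⟩ h1 ⟨m', a'⟩ h2 h
    simp only [coe_product, Set.mem_prod, mem_coe, mem_filter, SA, mem_Icc] at h1 h2 h
    obtain ⟨⟨⟨hm1, hm2⟩, hm⟩, ⟨ha1, ha2⟩, ha⟩ := h1
    obtain ⟨⟨⟨hm1', hm2'⟩, hm'⟩, ⟨ha1', ha2'⟩, ha'⟩ := h2
    have e1 : a ∣ a' := by
      have : a ∣ m' * a' := ⟨m, by rw [← h]; ring⟩
      exact (coprime_of hm' ha).dvd_of_dvd_mul_left this
    have e2 : a' ∣ a := by
      have : a' ∣ m * a := ⟨m', by rw [h]; ring⟩
      exact (coprime_of hm ha').dvd_of_dvd_mul_left this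
    have e3 : a = a' := Nat.dvd_antisymm e1 e2
    subst e3
    have : m = m' := Nat.eq_of_mul_eq_mul_right (by omega) h
    rw [this]
  calc ∑ x ∈ ((Icc 1 Y).filter (fun m => Free l m)) ×ˢ SA l Y A, (1 : ℝ) / (x.1 : ℝ) * (1 / (x.2 : ℝ))
      = ∑ x ∈ ((Icc 1 Y).filter (fun m => Free l m)) ×ˢ SA l Y A, (1 : ℝ) / ((x.1 * x.2 : ℕ) : ℝ) := by
        refine Finset.sum_congr rfl fun x _ => ?_
        push_cast
        rw [one_div_mul_one_div]
    _ = ∑ n ∈ (((Icc 1 Y).filter (fun m => Free l m)) ×ˢ SA l Y A).image (fun p : ℕ × ℕ => p.1 * p.2),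
          (1 : ℝ) / (n : ℝ) := by
        rw [Finset.sum_image hinj]
    _ ≤ ∑ n ∈ Icc 1 (Y * A), (1 : ℝ) / n := by
        apply Finset.sum_le_sum_of_subset_of_nonneg
        · intro n hn
          simp only [mem_image, mem_product, mem_filter, mem_Icc, SA] at hn ⊢
          obtain ⟨⟨m, a⟩, ⟨⟨⟨h1, h2⟩, _⟩, ⟨h3, h4⟩, _⟩, rfl⟩ := hn
          exact ⟨Nat.mul_pos h1 h3, Nat.mul_le_mul h2 h4⟩
        · intro n _ _
          positivity

lemma harm_le (N : ℕ) : ∑ n ∈ Icc 1 N, (1 : ℝ) / n ≤ 1 + Real.log N := by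
  have h := harmonic_le_one_add_log N
  rw [harmonic_eq_sum_Icc] at h
  push_cast at h
  simpa [one_div] using h

lemma pw_norm {σ : ℝ} (hσ : 0 < σ) {p : ℕ} (hp : p.Prime) : ‖pw σ p‖ < 1 := by
  have h1 : (1 : ℝ) < p := by exact_mod_cast hp.one_lt
  have h2 : pw σ p = (p : ℝ) ^ (-σ) := rfl
  rw [h2, Real.norm_of_nonneg (by positivity)]
  exact Real.rpow_lt_one_of_one_lt_of_neg h1 (by linarith)

lemma prod_eq {l Y : ℕ} {σ : ℝ} (hσ : 0 < σ) :
    HasSum (fun m : Nat.factoredNumbers (PS l Y) => ((m : ℕ) : ℝ) ^ (-σ))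
      (∏ p ∈ PS l Y, (1 - (p : ℝ) ^ (-σ))⁻¹) := by
  have h := (EulerProduct.summable_and_hasSum_factoredNumbers_prod_filter_prime_geometric
    (f := pw σ) (fun {p} hp => pw_norm hσ hp) (PS l Y)).2
  have h2 : (PS l Y).filter Nat.Prime = PS l Y := by
    apply Finset.filter_true_of_mem
    intro q hq
    simp only [PS, mem_filter] at hq
    exact hq.2.1
  rw [h2] at h
  exact h

/-- Rankin -/
lemma rankin {l Y A : ℕ} {B η : ℝ} (hB : 1 ≤ B) (hA : ∀ a : ℕ, (a : ℝ) ≤ B → a ≤ A) (hη0 : 0 < η)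
    (hη : η < 1) :
    ∏ p ∈ PS l Y, (1 - (p : ℝ) ^ (-(1 : ℝ)))⁻¹ ≤ ∑ a ∈ SA l Y A, (1 : ℝ) / a +
      B ^ (-η) * ∏ p ∈ PS l Y, (1 - (p : ℝ) ^ (-(1 - η)))⁻¹ := by
  classical
  have h1 := prod_eq (l := l) (Y := Y) (σ := 1) one_pos
  have h2 := (prod_eq (l := l) (Y := Y) (σ := 1 - η) (by linarith)).mul_left (B ^ (-η))
  -- finite part
  have h3 : HasSum (fun m : Nat.factoredNumbers (PS l Y) =>
      if (m : ℕ) ∈ SA l Y A then (1 : ℝ) / ((m : ℕ) : ℝ) else 0) (∑ a ∈ SA l Y A, (1 : ℝ) / a) := by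
    have hs0 : HasSum (fun m : ℕ => if m ∈ SA l Y A then (1 : ℝ) / (m : ℝ) else 0)
        (∑ a ∈ SA l Y A, if a ∈ SA l Y A then (1 : ℝ) / (a : ℝ) else 0) :=
      hasSum_sum_of_ne_finset_zero (fun b hb => if_neg hb)
    have hs : HasSum (fun m : ℕ => if m ∈ SA l Y A then (1 : ℝ) / (m : ℝ) else 0)
        (∑ a ∈ SA l Y A, (1 : ℝ) / a) := by
      have e : ∑ a ∈ SA l Y A, (1 : ℝ) / a =
          ∑ a ∈ SA l Y A, (if a ∈ SA l Y A then (1 : ℝ) / (a : ℝ) else 0) :=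
        Finset.sum_congr rfl fun a ha => (if_pos ha).symm
      rw [e]; exact hs0
    have hi : Function.Injective (Subtype.val : Nat.factoredNumbers (PS l Y) → ℕ) :=
      Subtype.val_injective
    have h4 := (hi.hasSum_iff (f := fun m : ℕ => if m ∈ SA l Y A then (1 : ℝ) / (m : ℝ) else 0)
      (a := ∑ a ∈ SA l Y A, (1 : ℝ) / a) (by
      intro x hx
      have hx3 : x ∉ SA l Y A := by
        intro hx2
        simp only [SA, mem_filter] at hx2
        exact hx ⟨⟨x, hx2.2⟩, rfl⟩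
      exact if_neg hx3)).2 hs
    exact h4
  refine hasSum_le ?_ h1 (h3.add h2)
  rintro ⟨m, hm⟩
  have hm0 : m ≠ 0 := hm.1
  have hm1 : (1 : ℝ) ≤ m := by exact_mod_cast Nat.one_le_iff_ne_zero.2 hm0
  have hm2 : (0 : ℝ) < m := by linarith
  dsimp only
  by_cases hmB : (m : ℝ) ≤ B
  · have hmem : m ∈ SA l Y A := by
      simp only [SA, mem_filter, mem_Icc]
      exact ⟨⟨by omega, hA m hmB⟩, hm⟩
    rw [if_pos hmem, Real.rpow_neg_one, one_div]
    have : 0 ≤ B ^ (-η) * (m : ℝ) ^ (-(1 - η)) := by positivity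
    linarith
  · push Not at hmB
    have h4 : (m : ℝ) ^ (-(1 : ℝ)) ≤ B ^ (-η) * (m : ℝ) ^ (-(1 - η)) := by
      have e : (m : ℝ) ^ (-(1 : ℝ)) = (m : ℝ) ^ (-η) * (m : ℝ) ^ (-(1 - η)) := by
        rw [← Real.rpow_add hm2]; congr 1; ring
      rw [e]
      apply mul_le_mul_of_nonneg_right _ (by positivity)
      exact Real.rpow_le_rpow_of_nonpos (by linarith) hmB.le (by linarith)
    have h5 : (0 : ℝ) ≤ (if m ∈ SA l Y A then (1 : ℝ) / (m : ℝ) else 0) := by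
      split_ifs
      · positivity
      · exact le_refl _
    linarith

/-- `1/(1-1/q) ≥ e^{1/q}` -/
lemma prod_ge_exp (l Y : ℕ) :
    Real.exp (RS l Y) ≤ ∏ p ∈ PS l Y, (1 - (p : ℝ) ^ (-(1 : ℝ)))⁻¹ := by
  unfold RS
  change Real.exp (∑ q ∈ PS l Y, (1 : ℝ) / q) ≤ _
  rw [Real.exp_sum]
  apply Finset.prod_le_prod
  · intro i _; positivity
  · intro q hq
    simp only [PS, mem_filter] at hq
    have hq1 : (1 : ℝ) < q := by exact_mod_cast hq.2.1.one_lt
    rw [Real.rpow_neg_one, one_div]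
    have h1 : (q : ℝ)⁻¹ < 1 := inv_lt_one_of_one_lt₀ hq1
    have h2 : 1 - (q : ℝ)⁻¹ ≤ Real.exp (-(q : ℝ)⁻¹) := by
      have := Real.add_one_le_exp (-(q : ℝ)⁻¹); linarith
    rw [show Real.exp ((q : ℝ)⁻¹) = (Real.exp (-(q : ℝ)⁻¹))⁻¹ by rw [Real.exp_neg, inv_inv]]
    exact inv_anti₀ (by linarith) h2

/-- comparison of the two products -/
lemma prod_compare {l Y : ℕ} (hl : 5 ≤ l) {c : ℝ} (hc : 0 < c)
    (hcY : 2 * c ≤ Real.log Y) :
    ∏ p ∈ PS l Y, (1 - (p : ℝ) ^ (-(1 - c / Real.log Y)))⁻¹ ≤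
      Real.exp (2 * (Real.exp c - 1) * ((∑ q ∈ PS l Y, Real.log q / q) / Real.log Y)) *
      ∏ p ∈ PS l Y, (1 - (p : ℝ) ^ (-(1 : ℝ)))⁻¹ := by
  have hLY : 0 < Real.log Y := by linarith
  have e1 : Real.exp (2 * (Real.exp c - 1) * ((∑ q ∈ PS l Y, Real.log q / q) / Real.log Y)) =
      ∏ q ∈ PS l Y, Real.exp (2 * (Real.exp c - 1) * ((Real.log q / q) / Real.log Y)) := by
    rw [← Real.exp_sum, ← Finset.mul_sum, ← Finset.sum_div]
  rw [e1, ← Finset.prod_mul_distrib]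
  apply Finset.prod_le_prod
  · intro q hq
    simp only [PS, mem_filter] at hq
    have hq1 : (1 : ℝ) < q := by exact_mod_cast hq.2.1.one_lt
    have : (q : ℝ) ^ (-(1 - c / Real.log Y)) < 1 := by
      apply Real.rpow_lt_one_of_one_lt_of_neg hq1
      have : c / Real.log Y ≤ 1 / 2 := by
        rw [div_le_iff₀ hLY]; linarith
      linarith
    have h2 : 0 < 1 - (q : ℝ) ^ (-(1 - c / Real.log Y)) := by linarith
    positivity
  · intro q hq
    simp only [PS, mem_filter, mem_Icc] at hq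
    obtain ⟨⟨hq0, hqY⟩, hqp, hlq⟩ := hq
    have hq1 : (1 : ℝ) < q := by exact_mod_cast hqp.one_lt
    have hq4 : 4 ≤ q := by
      have := Nat.le_of_dvd (by omega) hlq
      omega
    have hq4' : (4 : ℝ) ≤ q := by exact_mod_cast hq4
    have hlogq : 0 < Real.log q := Real.log_pos hq1
    have hlq2 : Real.log q ≤ Real.log Y := Real.log_le_log (by linarith) (by exact_mod_cast hqY)
    set η := c / Real.log Y with hη
    have hη1 : η ≤ 1 / 2 := by
      rw [hη, div_le_iff₀ hLY]; linarith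
    have hη0 : 0 < η := by positivity
    set u : ℝ := (q : ℝ) ^ (-(1 - η)) with hu
    set v : ℝ := (q : ℝ) ^ (-(1 : ℝ)) with hv
    have hv' : v = (q : ℝ)⁻¹ := Real.rpow_neg_one _
    have hu1 : u ≤ 1 / 2 := by
      calc u ≤ (q : ℝ) ^ (-(1 / 2 : ℝ)) := by
            apply Real.rpow_le_rpow_of_exponent_le (by linarith); linarith
        _ ≤ (4 : ℝ) ^ (-(1 / 2 : ℝ)) := Real.rpow_le_rpow_of_nonpos (by norm_num) hq4' (by norm_num)
        _ = 1 / 2 := by
            rw [Real.rpow_neg (by norm_num), ← Real.sqrt_eq_rpow]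
            rw [show (4 : ℝ) = 2 ^ 2 by norm_num, Real.sqrt_sq (by norm_num)]; norm_num
    have hv0 : 0 < v := by positivity
    have hvu : u - v ≤ (Real.exp c - 1) * ((Real.log q / q) / Real.log Y) := by
      have e2 : u = v * Real.exp (c * (Real.log q / Real.log Y)) := by
        rw [hu, hv, Real.rpow_def_of_pos (by linarith), Real.rpow_def_of_pos (by linarith),
          ← Real.exp_add]
        congr 1
        rw [hη]; field_simp; ring
      have h3 : Real.exp (c * (Real.log q / Real.log Y)) ≤ 1 + (Real.log q / Real.log Y) * (Real.exp c - 1) := by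
        have ht0 : 0 ≤ Real.log q / Real.log Y := by positivity
        have ht1 : Real.log q / Real.log Y ≤ 1 := (div_le_one hLY).2 hlq2
        have hconv := convexOn_exp.2 (Set.mem_univ (0 : ℝ)) (Set.mem_univ c)
          (sub_nonneg.2 ht1) ht0 (by ring)
        simp only [smul_eq_mul, mul_zero, zero_add, Real.exp_zero, mul_one] at hconv
        rw [mul_comm c]
        linarith
      have h4 : u - v ≤ v * ((Real.log q / Real.log Y) * (Real.exp c - 1)) := by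
        rw [e2]
        nlinarith
      refine h4.trans (le_of_eq ?_)
      rw [hv']; field_simp
    have h5 : 0 < 1 - u := by linarith
    have h6 : 0 < 1 - v := by
      have : v < 1 := by rw [hv']; exact inv_lt_one_of_one_lt₀ hq1
      linarith
    set w := (Real.exp c - 1) * ((Real.log q / q) / Real.log Y) with hw
    have hw0 : 0 ≤ w := by
      have : 1 ≤ Real.exp c := Real.one_le_exp hc.le
      have : 0 ≤ Real.exp c - 1 := by linarith
      positivity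
    have h7 : (1 - v) ≤ Real.exp (2 * w) * (1 - u) := by
      have h8 : 1 + 2 * w ≤ Real.exp (2 * w) := by
        have := Real.add_one_le_exp (2 * w); linarith
      have h9 : (1 + 2 * w) * (1 - u) ≤ Real.exp (2 * w) * (1 - u) :=
        mul_le_mul_of_nonneg_right h8 h5.le
      nlinarith
    rw [show 2 * (Real.exp c - 1) * ((Real.log q / q) / Real.log Y) = 2 * w by rw [hw]; ring]
    rw [← div_eq_mul_inv, le_div_iff₀ h6, inv_mul_le_iff₀ h5]
    linarith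

lemma main_bound {l Y : ℕ} (hl : 5 ≤ l) (hY : 2 ≤ Y) {c δ ε₁ ε₂ : ℝ} (hc : 0 < c) (hδ : 0 < δ)
    (hδ1 : δ ≤ 1 / 16) (hcY : 2 * c ≤ Real.log Y) (hdY : 1 ≤ δ * Real.log Y)
    (hcδ : Real.exp (-(c * δ)) ≤ δ) (hε₁ : 2 * (Real.exp c - 1) * ε₁ ≤ Real.log 2)
    (hε₂ : ε₂ ≤ δ)
    (hLQ : ∑ q ∈ PS l Y, Real.log q / q ≤ ε₁ * Real.log Y)
    (hRS : LL Y / ((l : ℝ) - 1) - ε₂ ≤ RS l Y) :
    HH l Y ≤ (1 + 16 * δ) * (Real.log Y * EE l Y) := by
  have hLY : 0 < Real.log Y := by linarith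
  have hY0 : (0 : ℝ) < Y := by exact_mod_cast (by omega : 0 < Y)
  have hY1 : (1 : ℝ) ≤ Y := by exact_mod_cast (by omega : 1 ≤ Y)
  set B : ℝ := (Y : ℝ) ^ δ with hB
  set A : ℕ := ⌊B⌋₊ with hA
  have hB1 : 1 ≤ B := Real.one_le_rpow hY1 hδ.le
  have hA1 : 1 ≤ A := by
    rw [hA]; exact Nat.le_floor (by exact_mod_cast hB1)
  have hAB : (A : ℝ) ≤ B := Nat.floor_le (by linarith)
  set η : ℝ := c / Real.log Y with hη
  have hη0 : 0 < η := by positivity
  have hη1 : η ≤ 1 / 2 := by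
    rw [hη, div_le_iff₀ hLY]; linarith
  set PP : ℝ := ∏ p ∈ PS l Y, (1 - (p : ℝ) ^ (-(1 : ℝ)))⁻¹ with hPP
  have hPPexp : Real.exp (RS l Y) ≤ PP := prod_ge_exp l Y
  have hPP0 : 0 < PP := lt_of_lt_of_le (Real.exp_pos _) hPPexp
  set S : ℝ := ∑ a ∈ SA l Y A, (1 : ℝ) / a with hS
  -- Rankin
  have hR : PP ≤ S + B ^ (-η) * ∏ p ∈ PS l Y, (1 - (p : ℝ) ^ (-(1 - η)))⁻¹ :=
    rankin hB1 (fun a ha => Nat.le_floor ha) hη0 (by linarith)
  have hBη : B ^ (-η) ≤ δ := by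
    have : B ^ (-η) = Real.exp (-(c * δ)) := by
      rw [hB, ← Real.rpow_mul hY0.le, Real.rpow_def_of_pos hY0]
      congr 1
      rw [hη]; field_simp
    rw [this]; exact hcδ
  have hcmp := prod_compare (l := l) (Y := Y) hl hc hcY
  have h2 : Real.exp (2 * (Real.exp c - 1) * ((∑ q ∈ PS l Y, Real.log q / q) / Real.log Y)) ≤ 2 := by
    have h3 : (∑ q ∈ PS l Y, Real.log q / q) / Real.log Y ≤ ε₁ := by
      rw [div_le_iff₀ hLY]; exact hLQ
    have h4 : 0 ≤ 2 * (Real.exp c - 1) := by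
      have : 1 ≤ Real.exp c := Real.one_le_exp hc.le
      linarith
    calc _ ≤ Real.exp (2 * (Real.exp c - 1) * ε₁) :=
          Real.exp_le_exp.2 (mul_le_mul_of_nonneg_left h3 h4)
      _ ≤ Real.exp (Real.log 2) := Real.exp_le_exp.2 hε₁
      _ = 2 := Real.exp_log (by norm_num)
  have hP2 : ∏ p ∈ PS l Y, (1 - (p : ℝ) ^ (-(1 - η)))⁻¹ ≤ 2 * PP :=
    hcmp.trans (mul_le_mul_of_nonneg_right h2 hPP0.le)
  have hP0 : 0 ≤ B ^ (-η) := by positivity
  have hS1 : (1 - 2 * δ) * PP ≤ S := by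
    have h5 : B ^ (-η) * ∏ p ∈ PS l Y, (1 - (p : ℝ) ^ (-(1 - η)))⁻¹ ≤ δ * (2 * PP) := by
      calc _ ≤ B ^ (-η) * (2 * PP) := mul_le_mul_of_nonneg_left hP2 hP0
        _ ≤ δ * (2 * PP) := mul_le_mul_of_nonneg_right hBη (by linarith)
    linarith
  have hSpos : 0 < S := lt_of_lt_of_le (by
    have : 0 < 1 - 2 * δ := by linarith
    positivity) hS1
  -- harmonic
  have hH := HH_mul_le l Y A
  have hN := harm_le (Y * A)
  have hlog : Real.log ((Y * A : ℕ) : ℝ) ≤ (1 + δ) * Real.log Y := by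
    push_cast
    have hA0 : (0 : ℝ) < A := by exact_mod_cast hA1
    rw [Real.log_mul hY0.ne' hA0.ne']
    have : Real.log A ≤ δ * Real.log Y := by
      calc Real.log A ≤ Real.log B := Real.log_le_log hA0 hAB
        _ = δ * Real.log Y := by rw [hB, Real.log_rpow hY0]
    linarith
  have hHH0 : 0 ≤ HH l Y := by
    unfold HH
    exact Finset.sum_nonneg fun i _ => by positivity
  have h6 : HH l Y * ((1 - 2 * δ) * PP) ≤ (1 + 2 * δ) * Real.log Y := by
    calc HH l Y * ((1 - 2 * δ) * PP) ≤ HH l Y * S := mul_le_mul_of_nonneg_left hS1 hHH0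
      _ ≤ 1 + Real.log ((Y * A : ℕ) : ℝ) := hH.trans hN
      _ ≤ (1 + 2 * δ) * Real.log Y := by linarith
  -- PP from below
  have h7 : Real.exp (-δ) * (EE l Y)⁻¹ ≤ PP := by
    refine le_trans ?_ hPPexp
    unfold EE
    rw [← Real.exp_neg, ← Real.exp_add]
    apply Real.exp_le_exp.2
    have e : -(-(LL Y) / ((l : ℝ) - 1)) = LL Y / ((l : ℝ) - 1) := by ring
    rw [e]; linarith
  have hE0 : 0 < EE l Y := Real.exp_pos _
  have h8 : 1 - δ ≤ Real.exp (-δ) := by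
    have := Real.add_one_le_exp (-δ); linarith
  have h9 : HH l Y * ((1 - 2 * δ) * ((1 - δ) * (EE l Y)⁻¹)) ≤ (1 + 2 * δ) * Real.log Y := by
    refine le_trans (mul_le_mul_of_nonneg_left ?_ hHH0) h6
    apply mul_le_mul_of_nonneg_left _ (by linarith)
    refine le_trans (mul_le_mul_of_nonneg_right h8 (by positivity)) h7
  have h10 : HH l Y * ((1 - 2 * δ) * (1 - δ)) ≤ (1 + 2 * δ) * (Real.log Y * EE l Y) := by
    have := mul_le_mul_of_nonneg_right h9 hE0.le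
    have e : HH l Y * ((1 - 2 * δ) * ((1 - δ) * (EE l Y)⁻¹)) * EE l Y =
        HH l Y * ((1 - 2 * δ) * (1 - δ)) := by
      field_simp
    rw [e] at this
    linarith
  have h11 : 1 + 2 * δ ≤ (1 + 16 * δ) * ((1 - 2 * δ) * (1 - δ)) := by
    have ha : 0 ≤ δ * (1 / 16 - δ) := mul_nonneg hδ.le (by linarith)
    have hb : 0 < δ ^ 3 := by positivity
    nlinarith [ha, hb, hδ]
  have hD : 0 < (1 - 2 * δ) * (1 - δ) := mul_pos (by linarith) (by linarith)
  have hLE : 0 < Real.log Y * EE l Y := by positivity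
  have h12 : HH l Y * ((1 - 2 * δ) * (1 - δ)) ≤
      ((1 + 16 * δ) * (Real.log Y * EE l Y)) * ((1 - 2 * δ) * (1 - δ)) := by
    refine h10.trans ?_
    refine (mul_le_mul_of_nonneg_right h11 hLE.le).trans (le_of_eq ?_)
    ring
  exact le_of_mul_le_mul_right h12 hD

theorem taskHUp : TaskHUp := by
  intro hMAP hLQ ε hε
  set δ : ℝ := min ε 1 / 16 with hδ
  have hδ0 : 0 < δ := by rw [hδ]; positivity
  have hδ1 : δ ≤ 1 / 16 := by
    rw [hδ]; have := min_le_right ε 1; linarith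
  have hδε : 16 * δ ≤ ε := by
    rw [hδ]; have := min_le_left ε 1; linarith
  set c : ℝ := Real.log (1 / δ) / δ with hc
  have hc0 : 0 < c := by
    rw [hc]
    apply div_pos (Real.log_pos _) hδ0
    rw [lt_div_iff₀ hδ0]; linarith
  have hcδ : Real.exp (-(c * δ)) ≤ δ := by
    have : c * δ = Real.log (1 / δ) := by rw [hc]; field_simp
    rw [this, one_div, Real.log_inv, neg_neg, Real.exp_log hδ0]
  have hec : 0 < Real.exp c - 1 := by
    have : 1 < Real.exp c := Real.one_lt_exp_iff.2 hc0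
    linarith
  set ε₁ : ℝ := Real.log 2 / (2 * (Real.exp c - 1)) with hε₁
  have hlog2 : 0 < Real.log 2 := Real.log_pos (by norm_num)
  have hε₁0 : 0 < ε₁ := by rw [hε₁]; positivity
  have hε₁' : 2 * (Real.exp c - 1) * ε₁ ≤ Real.log 2 := by
    rw [hε₁]; apply le_of_eq; field_simp
  obtain ⟨l1, Y1, h1⟩ := hLQ ε₁ hε₁0
  obtain ⟨l2, Y2, h2⟩ := hMAP δ hδ0
  obtain ⟨Y3, h3⟩ : ∃ Y3 : ℕ, ∀ Y : ℕ, Y3 ≤ Y → 2 * c ≤ Real.log Y ∧ 1 / δ ≤ Real.log Y := by
    refine ⟨⌈Real.exp (max (2 * c) (1 / δ))⌉₊, fun Y hY => ?_⟩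
    have h4 : Real.exp (max (2 * c) (1 / δ)) ≤ Y :=
      (Nat.le_ceil _).trans (by exact_mod_cast hY)
    have h5 : max (2 * c) (1 / δ) ≤ Real.log Y :=
      (Real.le_log_iff_exp_le (lt_of_lt_of_le (Real.exp_pos _) h4)).2 h4
    exact ⟨(le_max_left _ _).trans h5, (le_max_right _ _).trans h5⟩
  refine ⟨max (max l1 l2) 5, max (max Y1 Y2) (max Y3 2), fun Y hY l hl hl0 hlY => ?_⟩
  have hl5 : 5 ≤ l := (le_max_right _ _).trans hl0
  have hll1 : l1 ≤ l := ((le_max_left _ _).trans (le_max_left _ _)).trans hl0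
  have hll2 : l2 ≤ l := ((le_max_right _ _).trans (le_max_left _ _)).trans hl0
  have hY1 : Y1 ≤ Y := ((le_max_left _ _).trans (le_max_left _ _)).trans hY
  have hY2 : Y2 ≤ Y := ((le_max_right _ _).trans (le_max_left _ _)).trans hY
  have hY3 : Y3 ≤ Y := ((le_max_left _ _).trans (le_max_right _ _)).trans hY
  have hY4 : 2 ≤ Y := ((le_max_right _ _).trans (le_max_right _ _)).trans hY
  obtain ⟨hc1, hd1⟩ := h3 Y hY3
  have hLL : 0 ≤ LL Y := by
    by_contra hneg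
    push Not at hneg
    have : (0 : ℝ) ≤ (l : ℝ) ^ 2 := by positivity
    linarith
  have hlog1 : 1 ≤ δ * Real.log Y := by
    rw [div_le_iff₀ hδ0] at hd1; linarith
  have hLQ' := h1 Y hY1 l hl hll1 hlY
  have hRS := h2 Y hY2 l hl hll2 (by linarith)
  rw [abs_le] at hRS
  have hb := main_bound (l := l) (Y := Y) hl5 hY4 (c := c) (δ := δ) (ε₁ := ε₁) (ε₂ := δ) hc0 hδ0 hδ1
    hc1 hlog1 hcδ hε₁' le_rfl hLQ' (by linarith [hRS.1])
  refine hb.trans ?_
  have hlogY : 0 < Real.log Y := by linarith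
  have hE0 : 0 < EE l Y := Real.exp_pos _
  apply mul_le_mul_of_nonneg_right _ (by positivity)
  linarith

end Pool.Agent.H184R4.NA

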